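import Pool.Agent.Helper15.RK.GoalsF

/-!
# Packet LIMK (helper15, RK): the limit of `H + s θ`
-/

open Complex Metric Set Filter Topology MeasureTheory
open scoped ContDiff ComplexConjugate ComplexOrder Manifold Matrix

namespace Pool.Agent.Helper38.RK

open Pool.Agent.Helper95.Lin Pool.Agent.Helper16.Abund Pool.Agent.Helper92.Orb
  Pool.Agent.Helper10.SP Pool.Agent.Helper95.RK Pool.Agent.Helper15.RK

variable {b k : ℕ}

/-- `Qᴴ A Q` for `Q = conj P`. -/
theorem sand_apply {n : ℕ} (A : Matrix (Fin n) (Fin n) ℂ) (p : Fin n → Fin n → ℂ) (a c : Fin n) :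
    (((Matrix.of fun i j => conj (p j i)) : Matrix (Fin n) (Fin n) ℂ)ᴴ * A *
      (Matrix.of fun i j => conj (p j i))) a c = hermi A (p a) (p c) := by
  simp only [Matrix.mul_apply, Matrix.conjTranspose_apply, Matrix.of_apply, hermi,
    Finset.sum_mul]
  rw [Finset.sum_comm]
  refine Finset.sum_congr rfl fun i _ => Finset.sum_congr rfl fun j _ => ?_
  simp only [RCLike.star_def, Complex.conj_conj]
  ring

theorem hermi_swap {n : ℕ} {A : Matrix (Fin n) (Fin n) ℂ} (hA : A.IsHermitian) (u v : Cn n) :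
    hermi A u v = conj (hermi A v u) := by
  unfold hermi
  rw [map_sum, Finset.sum_comm]
  refine Finset.sum_congr rfl fun i _ => ?_
  rw [map_sum]
  refine Finset.sum_congr rfl fun j _ => ?_
  have e : conj (A i j) = A j i := hA.apply j i
  rw [map_mul, map_mul, Complex.conj_conj, e]
  ring

theorem hermi_ker {n : ℕ} (θ : Matrix (Fin n) (Fin n) ℂ) (v u : Cn n)
    (h : ∀ j, ∑ i, θ i j * v i = 0) : hermi θ v u = 0 := by
  unfold hermi
  rw [Finset.sum_comm]
  refine Finset.sum_eq_zero fun j _ => ?_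
  rw [← Finset.sum_mul, h j, zero_mul]

theorem sum4_comm {n : ℕ} (f : Fin n → Fin n → Fin b → Fin b → ℂ) :
    ∑ i : Fin n, ∑ j : Fin n, ∑ l : Fin b, ∑ m : Fin b, f i j l m =
      ∑ l : Fin b, ∑ m : Fin b, ∑ i : Fin n, ∑ j : Fin n, f i j l m := by
  calc ∑ i : Fin n, ∑ j : Fin n, ∑ l : Fin b, ∑ m : Fin b, f i j l m
      = ∑ i : Fin n, ∑ l : Fin b, ∑ j : Fin n, ∑ m : Fin b, f i j l m :=
        Finset.sum_congr rfl fun i _ => Finset.sum_comm
    _ = ∑ l : Fin b, ∑ i : Fin n, ∑ j : Fin n, ∑ m : Fin b, f i j l m := Finset.sum_comm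
    _ = ∑ l : Fin b, ∑ i : Fin n, ∑ m : Fin b, ∑ j : Fin n, f i j l m :=
        Finset.sum_congr rfl fun l _ => Finset.sum_congr rfl fun i _ => Finset.sum_comm
    _ = ∑ l : Fin b, ∑ m : Fin b, ∑ i : Fin n, ∑ j : Fin n, f i j l m :=
        Finset.sum_congr rfl fun l _ => Finset.sum_comm

theorem tendsto_mat {m n : ℕ} {F : ℝ → Matrix (Fin m) (Fin n) ℂ} {A : Matrix (Fin m) (Fin n) ℂ}
    (h : ∀ a c, Tendsto (fun s => F s a c) atTop (𝓝 (A a c))) : Tendsto F atTop (𝓝 A) :=
  tendsto_pi_nhds.2 fun a => tendsto_pi_nhds.2 fun c => h a c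

theorem tendsto_entry {m n : ℕ} {F : ℝ → Matrix (Fin m) (Fin n) ℂ} {A : Matrix (Fin m) (Fin n) ℂ}
    (h : Tendsto F atTop (𝓝 A)) (a : Fin m) (c : Fin n) :
    Tendsto (fun s => F s a c) atTop (𝓝 (A a c)) :=
  tendsto_pi_nhds.1 (tendsto_pi_nhds.1 h a) c

theorem tendsto_det {n : ℕ} {F : ℝ → Matrix (Fin n) (Fin n) ℂ} {A : Matrix (Fin n) (Fin n) ℂ}
    (h : Tendsto F atTop (𝓝 A)) : Tendsto (fun s => (F s).det) atTop (𝓝 A.det) :=
  ((Continuous.matrix_det continuous_id).tendsto A).comp h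

theorem tendsto_minv {n : ℕ} {F : ℝ → Matrix (Fin n) (Fin n) ℂ} {A : Matrix (Fin n) (Fin n) ℂ}
    (h : Tendsto F atTop (𝓝 A)) (hA : A.det ≠ 0) : Tendsto (fun s => (F s)⁻¹) atTop (𝓝 A⁻¹) := by
  have h1 : Tendsto (fun s => ((F s).det)⁻¹ • (F s).adjugate) atTop
      (𝓝 ((A.det)⁻¹ • A.adjugate)) :=
    ((tendsto_det h).inv₀ hA).smul ((Continuous.matrix_adjugate continuous_id).tendsto A |>.comp h)
  have e : ∀ A : Matrix (Fin n) (Fin n) ℂ, A⁻¹ = (A.det)⁻¹ • A.adjugate := fun A => by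
    rw [Matrix.inv_def, Ring.inverse_eq_inv']
  simp only [e]
  exact h1

theorem tendsto_sand {n : ℕ} {F D : ℝ → Matrix (Fin n) (Fin n) ℂ} {A D0 : Matrix (Fin n) (Fin n) ℂ}
    (Q R : Matrix (Fin n) (Fin n) ℂ) (hF : Tendsto F atTop (𝓝 A)) (hA : A.det ≠ 0)
    (hD : Tendsto D atTop (𝓝 D0)) :
    Tendsto (fun s => Q * ((F s)⁻¹ * D s) * R) atTop (𝓝 (Q * (A⁻¹ * D0) * R)) :=
  (((tendsto_const_nhds (x := Q)).mul ((tendsto_minv hF hA).mul hD))).mul tendsto_const_nhds

theorem sand_inv {n : ℕ} (Q R Nn D H : Matrix (Fin n) (Fin n) ℂ) (hQ : Q.det ≠ 0)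
    (hN : Nn.det ≠ 0) (h : Nn = D * (R * H * Q)) : Q * (Nn⁻¹ * D) * R = H⁻¹ := by
  symm
  refine Matrix.inv_eq_left_inv ?_
  have hQu' : IsUnit Q.det := isUnit_iff_ne_zero.2 hQ
  have hNsu : IsUnit Nn.det := isUnit_iff_ne_zero.2 hN
  have h3 : Q * (Nn⁻¹ * D) * R * H * Q = Q := by
    calc Q * (Nn⁻¹ * D) * R * H * Q = Q * (Nn⁻¹ * (D * (R * H * Q))) := by
          simp only [Matrix.mul_assoc]
      _ = Q * (Nn⁻¹ * Nn) := by rw [← h]
      _ = Q := by rw [Matrix.nonsing_inv_mul _ hNsu, Matrix.mul_one]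
  calc Q * (Nn⁻¹ * D) * R * H = Q * (Nn⁻¹ * D) * R * H * (Q * Q⁻¹) := by
        rw [Matrix.mul_nonsing_inv _ hQu', Matrix.mul_one]
    _ = Q * (Nn⁻¹ * D) * R * H * Q * Q⁻¹ := by simp only [Matrix.mul_assoc]
    _ = 1 := by rw [h3, Matrix.mul_nonsing_inv _ hQu']

theorem det_PM_ne (L : Cn (b + k) →ₗ[ℂ] Cn k) (w : Fin b → Cn (b + k)) (v : Fin k → Cn (b + k))
    (hLv : ∀ α, L (v α) = Pi.single α 1) (hw : LinearIndependent ℂ w) (hLw : ∀ i, L (w i) = 0) :
    (PM w v).det ≠ 0 := by
  intro h0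
  obtain ⟨x, hx, hx0⟩ := Matrix.exists_mulVec_eq_zero_iff.2 h0
  apply hx
  have h1 : ∑ i : Fin b, x (Fin.castAdd k i) • w i + ∑ α : Fin k, x (Fin.natAdd b α) • v α = 0 := by
    funext j
    have h2 := congrFun hx0 j
    simp only [Matrix.mulVec, dotProduct, PM, Matrix.of_apply, Fin.sum_univ_add,
      Fin.append_left, Fin.append_right, Pi.zero_apply] at h2
    simp only [Pi.add_apply, Finset.sum_apply, Pi.smul_apply, smul_eq_mul, Pi.zero_apply]
    rw [← h2]
    congr 1 <;> exact Finset.sum_congr rfl fun _ _ => mul_comm _ _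
  have h3 : ∀ α : Fin k, x (Fin.natAdd b α) = 0 := by
    intro α
    have h4 := congrArg L h1
    rw [map_add, map_sum, map_sum, map_zero] at h4
    simp only [map_smul, hLw, smul_zero, Finset.sum_const_zero, zero_add, hLv] at h4
    have h5 := congrFun h4 α
    simpa [Finset.sum_apply, Pi.single_apply] using h5
  have h6 : ∀ i : Fin b, x (Fin.castAdd k i) = 0 := by
    simp only [h3, zero_smul, Finset.sum_const_zero, add_zero] at h1
    exact fun i => Fintype.linearIndependent_iff.1 hw _ h1 i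
  funext j
  refine Fin.addCases (fun i => h6 i) (fun α => h3 α) j

/-- `LIMK`. -/
theorem limk : S_LIMK := by
  intro b k H θ L w v hH hθ hLv hker honly hw hLw
  have hP := det_PM_ne L w v hLv hw hLw
  set Q : Matrix (Fin (b + k)) (Fin (b + k)) ℂ := Matrix.of fun i j => conj (Fin.append w v j i)
    with hQ
  have hQP : Q = (PM w v).map (starRingEnd ℂ) := by
    funext i j; simp [hQ, PM]
  have hQdet : Q.det = conj (PM w v).det := by
    rw [hQP, RingHom.map_det]; rfl
  have hQdet0 : Q.det ≠ 0 := by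
    rw [hQdet]; exact (map_ne_zero _).2 hP
  have hQu : IsUnit Q := (Matrix.isUnit_iff_isUnit_det Q).2 (isUnit_iff_ne_zero.2 hQdet0)
  set MH : Matrix (Fin (b + k)) (Fin (b + k)) ℂ := Qᴴ * H * Q with hMH
  set Θ : Matrix (Fin (b + k)) (Fin (b + k)) ℂ := Qᴴ * θ * Q with hΘ
  have hMHa : ∀ a c, MH a c = hermi H (Fin.append w v a) (Fin.append w v c) := fun a c => by
    rw [hMH, hQ]; exact sand_apply H (Fin.append w v) a c
  have hΘa : ∀ a c, Θ a c = hermi θ (Fin.append w v a) (Fin.append w v c) := fun a c => by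
    rw [hΘ, hQ]; exact sand_apply θ (Fin.append w v) a c
  have hMHpd : MH.PosDef := by
    rw [hMH]
    exact hH.conjTranspose_mul_mul_same (Matrix.mulVec_injective_of_isUnit hQu)
  have hΘps : Θ.PosSemidef := hθ.conjTranspose_mul_mul_same Q
  set Θw : Matrix (Fin b) (Fin b) ℂ := Matrix.of fun i j : Fin b => hermi θ (w i) (w j) with hΘw
  set G : Matrix (Fin k) (Fin k) ℂ := Matrix.of fun α β : Fin k => hermi H (v α) (v β) with hG
  have hΘws : Θw = Θ.submatrix (Fin.castAdd k) (Fin.castAdd k) := by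
    ext i j; simp [hΘw, hΘa]
  have hGs : G = MH.submatrix (Fin.natAdd b) (Fin.natAdd b) := by
    ext i j; simp [hG, hMHa]
  have hGpd : G.PosDef := by
    rw [hGs]; exact hMHpd.submatrix (Fin.natAdd_injective k b)
  have hΘwpd : Θw.PosDef := by
    have hps : Θw.PosSemidef := by rw [hΘws]; exact hΘps.submatrix _
    refine Matrix.PosDef.of_dotProduct_mulVec_pos hps.1 fun x hx => ?_
    refine lt_of_le_of_ne (hps.dotProduct_mulVec_nonneg x) fun h0 => hx ?_
    -- the vector `e = ∑ conj x_i w_i`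
    have h1 : hermi θ (∑ i, conj (x i) • w i) (∑ i, conj (x i) • w i) = 0 := by
      rw [h0]
      simp only [dotProduct, Matrix.mulVec, hΘw, Matrix.of_apply, hermi, Finset.sum_apply,
        Pi.smul_apply, smul_eq_mul, Finset.mul_sum, Finset.sum_mul, map_sum, map_mul,
        Complex.conj_conj, Pi.star_apply, RCLike.star_def]
      rw [sum4_comm, Finset.sum_comm]
      refine Finset.sum_congr rfl fun i _ => Finset.sum_congr rfl fun j _ =>
        Finset.sum_congr rfl fun l _ => Finset.sum_congr rfl fun m _ => ?_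
      ring
    have h2 := honly _ h1
    have h3 : L (∑ i, conj (x i) • w i) = 0 := by
      rw [map_sum]
      refine Finset.sum_eq_zero fun i _ => ?_
      rw [map_smul, hLw, smul_zero]
    rw [h3] at h2
    simp only [Pi.zero_apply, zero_smul, Finset.sum_const_zero] at h2
    have h4 := Fintype.linearIndependent_iff.1 hw _ h2
    funext i
    have h5 := h4 i
    exact (map_eq_zero _).1 h5
  -- the limit matrices
  have hΘr : ∀ a α, Θ a (Fin.natAdd b α) = 0 := fun a α => by
    rw [hΘa, hermi_swap hθ.1, Fin.append_right, hermi_ker θ _ _ (hker α), map_zero]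
  have hΘl : ∀ α a, Θ (Fin.natAdd b α) a = 0 := fun α a => by
    rw [hΘa, Fin.append_right, hermi_ker θ _ _ (hker α)]
  set N : Matrix (Fin (b + k)) (Fin (b + k)) ℂ := Matrix.of fun a c =>
    Fin.addCases (motive := fun _ => ℂ) (fun i => Θ (Fin.castAdd k i) c)
      (fun α => MH (Fin.natAdd b α) c) a with hN
  set Di : ℝ → Fin (b + k) → ℂ := fun s a =>
    Fin.addCases (motive := fun _ => ℂ) (fun _ => ((s : ℂ))⁻¹) (fun _ => 1) a with hDi
  set D0 : Fin (b + k) → ℂ := fun a =>
    Fin.addCases (motive := fun _ => ℂ) (fun _ => 0) (fun _ => 1) a with hD0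
  set Ms : ℝ → Matrix (Fin (b + k)) (Fin (b + k)) ℂ := fun s => MH + (s : ℂ) • Θ with hMs
  set Ns : ℝ → Matrix (Fin (b + k)) (Fin (b + k)) ℂ := fun s =>
    Matrix.diagonal (Di s) * Ms s with hNs
  have hsinv : Tendsto (fun s : ℝ => ((s : ℂ))⁻¹) atTop (𝓝 0) := by
    have h1 : Tendsto (fun s : ℝ => ((s⁻¹ : ℝ) : ℂ)) atTop (𝓝 ((0 : ℝ) : ℂ)) :=
      (Complex.continuous_ofReal.tendsto 0).comp tendsto_inv_atTop_zero
    simpa using h1
  have hDlim : Tendsto (fun s => Matrix.diagonal (Di s)) atTop (𝓝 (Matrix.diagonal D0)) := by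
    refine tendsto_mat fun a c => ?_
    by_cases hac : a = c
    · subst hac
      simp only [Matrix.diagonal_apply_eq]
      refine Fin.addCases (fun i => ?_) (fun α => ?_) a
      · simpa [hDi, hD0] using hsinv
      · simp [hDi, hD0]
    · simp only [Matrix.diagonal_apply_ne _ hac]
      exact tendsto_const_nhds
  have hNlim : Tendsto Ns atTop (𝓝 N) := by
    refine tendsto_mat fun a c => ?_
    refine Fin.addCases (fun i => ?_) (fun α => ?_) a
    · have h1 : Tendsto (fun s : ℝ => ((s : ℂ))⁻¹ * MH (Fin.castAdd k i) c + Θ (Fin.castAdd k i) c)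
          atTop (𝓝 (0 * MH (Fin.castAdd k i) c + Θ (Fin.castAdd k i) c)) :=
        (hsinv.mul_const _).add_const _
      rw [zero_mul, zero_add] at h1
      have e : N (Fin.castAdd k i) c = Θ (Fin.castAdd k i) c := by simp [hN]
      rw [e]
      refine h1.congr' ?_
      filter_upwards [eventually_gt_atTop 0] with s hs
      have hs0 : (s : ℂ) ≠ 0 := by exact_mod_cast hs.ne'
      simp only [hNs, hMs, hDi, Matrix.diagonal_mul, Matrix.add_apply, Matrix.smul_apply,
        smul_eq_mul, Fin.addCases_left]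
      field_simp
    · have e : N (Fin.natAdd b α) c = MH (Fin.natAdd b α) c := by simp [hN]
      rw [e]
      refine tendsto_const_nhds.congr fun s => ?_
      simp only [hNs, hMs, hDi, Matrix.diagonal_mul, Matrix.add_apply, Matrix.smul_apply,
        smul_eq_mul, Fin.addCases_right, hΘl, mul_zero, add_zero, one_mul]
  have hNdet : N.det = Θw.det * G.det := by
    have h1 : N.submatrix finSumFinEquiv finSumFinEquiv = Matrix.fromBlocks Θw 0
        (Matrix.of fun α i => MH (Fin.natAdd b α) (Fin.castAdd k i)) G := by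
      ext a c
      rcases a with i | α <;> rcases c with j | β
      · simp [hN, hΘws]
      · simp [hN, hΘr]
      · simp [hN]
      · simp [hN, hGs]
    rw [← Matrix.det_submatrix_equiv_self finSumFinEquiv N, h1, Matrix.det_fromBlocks_zero₁₂]
  have hNdet0 : N.det ≠ 0 := by
    rw [hNdet]
    exact mul_ne_zero hΘwpd.det_pos.ne' hGpd.det_pos.ne'
  have hMsQ : ∀ s : ℝ, Ms s = Qᴴ * (H + (s : ℂ) • θ) * Q := fun s => by
    simp only [hMs, hMH, hΘ, Matrix.mul_add, Matrix.add_mul, Matrix.mul_smul, Matrix.smul_mul]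
  have hQQ : Qᴴ.det * Q.det = ((‖(PM w v).det‖ ^ 2 : ℝ) : ℂ) := by
    rw [Matrix.det_conjTranspose, hQdet]
    simp only [RCLike.star_def, Complex.conj_conj]
    rw [Complex.mul_conj, Complex.normSq_eq_norm_sq]
  have hPn : ((‖(PM w v).det‖ ^ 2 : ℝ) : ℂ) ≠ 0 := by
    have : (‖(PM w v).det‖ ^ 2 : ℝ) ≠ 0 := pow_ne_zero _ (norm_ne_zero_iff.2 hP)
    exact_mod_cast this
  refine ⟨hP, hΘwpd, hGpd, ?_, ?_⟩
  · have h1 : Tendsto (fun s => (Ns s).det / ((‖(PM w v).det‖ ^ 2 : ℝ) : ℂ)) atTop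
        (𝓝 (N.det / ((‖(PM w v).det‖ ^ 2 : ℝ) : ℂ))) :=
      (tendsto_det hNlim).div_const _
    rw [hNdet] at h1
    refine h1.congr' ?_
    filter_upwards [eventually_gt_atTop 0] with s hs
    have hs0 : (s : ℂ) ≠ 0 := by exact_mod_cast hs.ne'
    have h2 : (Ns s).det = ((s : ℂ) ^ b)⁻¹ * (((‖(PM w v).det‖ ^ 2 : ℝ) : ℂ) *
        (H + (s : ℂ) • θ).det) := by
      simp only [hNs]
      rw [Matrix.det_mul, Matrix.det_diagonal, Fin.prod_univ_add, hMsQ s, Matrix.det_mul,
        Matrix.det_mul, ← hQQ]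
      simp only [hDi, Fin.addCases_left, Fin.addCases_right, Finset.prod_const, Finset.card_univ,
        Fintype.card_fin, one_pow, mul_one, inv_pow]
      ring
    rw [h2]
    field_simp
  · intro j l
    set X : Matrix (Fin (b + k)) (Fin (b + k)) ℂ := Matrix.of fun a c =>
      Fin.addCases (motive := fun _ => ℂ) (fun _ => 0)
        (fun α => Fin.addCases (motive := fun _ => ℂ) (fun _ => 0) (fun β => G⁻¹ α β) c) a with hX
    have hGu : G * G⁻¹ = 1 := Matrix.mul_nonsing_inv _ (isUnit_iff_ne_zero.2 hGpd.det_pos.ne')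
    have hNX : N * X = Matrix.diagonal D0 := by
      ext a c
      rw [Matrix.mul_apply, Fin.sum_univ_add]
      refine Fin.addCases (fun i => ?_) (fun α => ?_) a
      · have e1 : ∀ m : Fin b, N (Fin.castAdd k i) (Fin.castAdd k m) * X (Fin.castAdd k m) c = 0 :=
          fun m => by simp [hX]
        have e2 : ∀ m : Fin k, N (Fin.castAdd k i) (Fin.natAdd b m) * X (Fin.natAdd b m) c = 0 :=
          fun m => by simp [hN, hΘr]
        simp only [e1, e2, Finset.sum_const_zero, add_zero]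
        rw [Matrix.diagonal_apply]
        split_ifs <;> simp [hD0]
      · have e1 : ∀ m : Fin b, N (Fin.natAdd b α) (Fin.castAdd k m) * X (Fin.castAdd k m) c = 0 :=
          fun m => by simp [hX]
        simp only [e1, Finset.sum_const_zero, zero_add]
        refine Fin.addCases (fun i => ?_) (fun β => ?_) c
        · have e2 : ∀ m : Fin k, N (Fin.natAdd b α) (Fin.natAdd b m) *
              X (Fin.natAdd b m) (Fin.castAdd k i) = 0 := fun m => by simp [hX]
          simp only [e2, Finset.sum_const_zero]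
          rw [Matrix.diagonal_apply_ne]
          intro h
          have := congrArg Fin.val h
          simp only [Fin.val_natAdd, Fin.val_castAdd] at this
          omega
        · have e2 : ∀ m : Fin k, N (Fin.natAdd b α) (Fin.natAdd b m) *
              X (Fin.natAdd b m) (Fin.natAdd b β) = G α m * G⁻¹ m β := fun m => by
            simp [hN, hX, hGs]
          simp only [e2]
          rw [← Matrix.mul_apply, hGu, Matrix.one_apply, Matrix.diagonal_apply]
          by_cases h : α = β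
          · subst h; simp [hD0]
          · rw [if_neg h, if_neg]
            intro h'
            exact h (Fin.natAdd_injective k b h')
    have hXeq : N⁻¹ * Matrix.diagonal D0 = X := by
      rw [← hNX, ← Matrix.mul_assoc, Matrix.nonsing_inv_mul _ (isUnit_iff_ne_zero.2 hNdet0),
        Matrix.one_mul]
    have hlim : Tendsto (fun s => Q * ((Ns s)⁻¹ * Matrix.diagonal (Di s)) * Qᴴ) atTop
        (𝓝 (Q * X * Qᴴ)) := by
      rw [← hXeq]
      exact tendsto_sand Q Qᴴ hNlim hNdet0 hDlim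
    have hval : (Q * X * Qᴴ) j l = ∑ α, ∑ β, conj (v α j) * G⁻¹ α β * v β l := by
      rw [Matrix.mul_apply, Fin.sum_univ_add]
      have e1 : ∀ m : Fin b, (Q * X) j (Fin.castAdd k m) = 0 := fun m => by
        rw [Matrix.mul_apply, Fin.sum_univ_add]
        simp [hX]
      have e2 : ∀ m : Fin k, (Q * X) j (Fin.natAdd b m) = ∑ α, conj (v α j) * G⁻¹ α m := fun m => by
        rw [Matrix.mul_apply, Fin.sum_univ_add]
        simp [hX, hQ]
      simp only [e1, e2, zero_mul, Finset.sum_const_zero, zero_add]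
      rw [Finset.sum_comm (f := fun α β => conj (v α j) * G⁻¹ α β * v β l)]
      refine Finset.sum_congr rfl fun β _ => ?_
      rw [Finset.sum_mul]
      refine Finset.sum_congr rfl fun α _ => ?_
      simp [hQ]
    have h1 := tendsto_entry hlim j l
    rw [hval] at h1
    refine h1.congr' ?_
    filter_upwards [(tendsto_det hNlim).eventually_ne hNdet0] with s hsd
    rw [sand_inv Q Qᴴ (Ns s) (Matrix.diagonal (Di s)) (H + (s : ℂ) • θ) hQdet0 hsd]
    rw [← hMsQ s]

end Pool.Agent.Helper38.RK
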